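import Mathlib
import Pool.Agent.R538.EF.Main
import Pool.Agent.R538.EF.Count

/-!
A countable elementary free group which is not the union of a chain (not even of a directed
family) of finitely generated elementary free subgroups.
-/

set_option autoImplicit false

namespace Pool.Agent.Results.MP_7bc825_lc.NoChain

open Pool.Agent.R538.EF

/-- There is a countable elementary free group `G` with two elements that lie in no common
finitely generated elementary free subgroup; so `G` is not the union of any directed family (in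
particular of any chain) of finitely generated elementary free subgroups. -/
theorem result : ∃ (G : Type) (_ : Group G), Countable G ∧ IsElementaryFree G ∧
    (∃ c d : G, ∀ H : Subgroup G, H.FG → IsElementaryFree H → ¬ (c ∈ H ∧ d ∈ H)) ∧
    ∀ (ι : Type) (H : ι → Subgroup G), (∀ i j, ∃ k, H i ≤ H k ∧ H j ≤ H k) →
      (∀ i, (H i).FG) → (∀ i, IsElementaryFree (H i)) → ¬ ∀ x : G, ∃ i, x ∈ H i := by
  obtain ⟨G, g, hc, he, c, d, hcd, hind⟩ := exists_countable
  have key : ∀ H : Subgroup G, H.FG → IsElementaryFree H → ¬ (c ∈ H ∧ d ∈ H) := by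
    rintro H h1 h2 ⟨hcH, hdH⟩
    refine no_Z2 H ((Group.fg_iff_subgroup_fg H).2 h1) h2 ⟨c, hcH⟩ ⟨d, hdH⟩ ?_ ?_
    · apply Subtype.ext
      exact hcd
    · intro i j h
      apply hind
      have := congrArg Subtype.val h
      simpa using this
  refine ⟨G, g, hc, he, ⟨c, d, key⟩, ?_⟩
  intro ι H hdir hfg hel hcov
  obtain ⟨i, hi⟩ := hcov c
  obtain ⟨j, hj⟩ := hcov d
  obtain ⟨k, hik, hjk⟩ := hdir i j
  exact key (H k) (hfg k) (hel k) ⟨hik hi, hjk hj⟩

end Pool.Agent.Results.MP_7bc825_lc.NoChain
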